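import Pool.Agent.H7.GY.Stmts

/-! Row NDMY of the board gy11 (helper87) -/

set_option autoImplicit false

open Finset

namespace Pool.GY7

open Pool.Agent.H23.KT Pool.Agent.H46.KW Pool.KQ Pool.GT7 Pool.GU7 Pool.GV7

/-- Lower bound of the weights. -/
theorem NDMY_ww (p r B : ℕ) (hr : r ≤ p) :
    ((p : ℝ) + 3) / ((p : ℝ) + 3 - r) * (1 - r * (1 / ((B : ℝ) + 1))) ≤ ww p r B := by
  have hrR : (r : ℝ) ≤ p := by exact_mod_cast hr
  have hb : 0 < (p : ℝ) + 3 - r := by linarith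
  have hB : 0 < (B : ℝ) + 1 := by positivity
  unfold ww gg
  push_cast
  split_ifs with h
  · have h' : (B : ℝ) + 1 ≤ r := by exact_mod_cast h
    have h1 : 1 ≤ r * (1 / ((B : ℝ) + 1)) := by
      rw [mul_one_div, one_le_div hB]; exact h'
    have h2 : ((p : ℝ) + 3) / ((p : ℝ) + 3 - r) * (1 - r * (1 / ((B : ℝ) + 1))) ≤ 0 :=
      mul_nonpos_of_nonneg_of_nonpos (by positivity) (by linarith)
    linarith
  · apply le_of_eq
    field_simp
    ring

/-- Convexity between `y` and `1`. -/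
theorem NDMY_conv (u : ℕ) (y x : ℝ) (hy0 : 0 < y) (hy1 : y < 1) (hx : y ≤ x) (hx1 : x ≤ 1) :
    x ^ u ≤ (1 - x) / (1 - y) * y ^ u + (1 - (1 - x) / (1 - y)) := by
  have h1 : 0 < 1 - y := by linarith
  have hl0 : 0 ≤ (1 - x) / (1 - y) := div_nonneg (by linarith) h1.le
  have hl1 : (1 - x) / (1 - y) ≤ 1 := by rw [div_le_one h1]; linarith
  have hc : ConvexOn ℝ (Set.Ici (0 : ℝ)) fun t : ℝ => t ^ u := convexOn_pow u
  have h2 := hc.2 (Set.mem_Ici.2 hy0.le) (Set.mem_Ici.2 zero_le_one) hl0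
    (by linarith : (0 : ℝ) ≤ 1 - (1 - x) / (1 - y)) (by ring)
  simp only [smul_eq_mul, one_pow, mul_one] at h2
  have h3 : (1 - x) / (1 - y) * y + (1 - (1 - x) / (1 - y)) = x := by
    field_simp
    ring
  rw [h3] at h2
  exact h2

theorem NDMY_k4 (w c : ℝ) (hw : 2 ≤ w) (hc : 1 ≤ c) : 4 ≤ (w + 2) * c := by nlinarith

theorem NDMY_k7 (p : ℝ) (hp : 4 ≤ p) : 49 ≤ (p + 3) ^ 2 := by nlinarith

theorem NDMY_l (x y : ℝ) (h1 : x ≤ 1) (h2 : 0 < y) : (1 - x) * (1 - y) ≤ 1 - x := by nlinarith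

/-- The numerical part. `A = a ^ b`. -/
theorem NDMY_num (p w r : ℕ) (h : PrY p w r) (hyu : yY p r ^ (w + 2) ≤ 23 / 100)
    (ε A N S T x : ℝ) (hA : 0 < A) (hε : ε = e1 p / (800 * ((p : ℝ) + 3) ^ 3))
    (h1 : (1 - ε) * A ≤ N) (h2 : N ≤ (1 + ε) * A)
    (h3 : S ≤ A * (1 / (((p : ℝ) + 3) * x) + ε))
    (h4 : ((p : ℝ) + 3) / ((p : ℝ) + 3 - r) * (N - r * S) ≤ T) (hT : T ≤ N)
    (hx : yY p r ≤ x) (hx1 : x ≤ 1 - e1 p / (8 * ((p : ℝ) + 2))) :
    x ^ (w + 1) * A ≤ (1 - et p w) * T := by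
  have hp0 : (0 : ℝ) ≤ p := Nat.cast_nonneg p
  have hr0 : (0 : ℝ) ≤ r := Nat.cast_nonneg r
  have he : 0 < e1 p := by unfold e1; positivity
  have he1 : e1 p ≤ 1 := by
    unfold e1
    rw [div_le_one (by positivity)]
    have : (1 : ℝ) ≤ ((p : ℝ) + 3) ^ 3 := one_le_pow₀ (by linarith)
    linarith
  have hrp : (r : ℝ) ≤ p := by exact_mod_cast h.rp
  have hw2 : (2 : ℝ) ≤ w := by exact_mod_cast h.w2
  have hr4 : (4 : ℝ) ≤ r := by
    have := h.rw
    have := h.w2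
    exact_mod_cast (by omega : 4 ≤ r)
  have hp4 : (4 : ℝ) ≤ p := by linarith
  have hβ : 0 < (p : ℝ) + 3 - r := by linarith
  have hy0 : 0 < yY p r := by unfold yY; positivity
  have hy1 : yY p r < 1 := by
    unfold yY
    rw [div_lt_one (by positivity)]
    linarith
  have hx0 : 0 < x := lt_of_lt_of_le hy0 hx
  have hδ : 0 < e1 p / (8 * ((p : ℝ) + 2)) := by positivity
  have hxle : x ≤ 1 := by linarith
  have hεpos : 0 < ε := by rw [hε]; positivity
  have hε1 : ε ≤ 1 := by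
    rw [hε, div_le_one (by positivity)]
    have : (1 : ℝ) ≤ ((p : ℝ) + 3) ^ 3 := one_le_pow₀ (by linarith)
    linarith
  -- (i)
  have hby : ((p : ℝ) + 3) * yY p r = ((p : ℝ) + 3 - r) / 4 + r := by
    unfold yY
    field_simp
    ring
  have hconv := NDMY_conv (w + 2) (yY p r) x hy0 hy1 hx hxle
  have h1y : 0 < 1 - yY p r := by linarith
  set l : ℝ := (1 - x) / (1 - yY p r) with hl
  have hl0 : 0 ≤ l := div_nonneg (by linarith) h1y.le
  have hll : e1 p / (8 * ((p : ℝ) + 2)) ≤ l := by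
    have : 1 - x ≤ l := by
      rw [hl, le_div_iff₀ h1y]
      exact NDMY_l x _ hxle hy0
    linarith
  have hlx : x = 1 - l * (1 - yY p r) := by
    rw [hl]; field_simp; ring
  have i1 : ((p : ℝ) + 3 - r) * (e1 p / (8 * ((p : ℝ) + 2)) / 50) ≤
      ((p : ℝ) + 3) * x - r - ((p : ℝ) + 3 - r) * x ^ (w + 2) := by
    have j1 : ((p : ℝ) + 3 - r) * x ^ (w + 2) ≤
        ((p : ℝ) + 3 - r) * (l * (23 / 100) + (1 - l)) := by
      apply mul_le_mul_of_nonneg_left _ hβ.le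
      have := mul_le_mul_of_nonneg_left hyu hl0
      linarith
    have j2 : ((p : ℝ) + 3) * x = ((p : ℝ) + 3) - l * (((p : ℝ) + 3) -
        (((p : ℝ) + 3 - r) / 4 + r)) := by
      rw [← hby]
      nth_rewrite 1 [hlx]
      ring
    have j3 : ((p : ℝ) + 3 - r) * (e1 p / (8 * ((p : ℝ) + 2)) / 50) ≤
        ((p : ℝ) + 3 - r) * (l / 50) := by
      apply mul_le_mul_of_nonneg_left _ hβ.le
      linarith
    have j4 : ((p : ℝ) + 3) - l * (((p : ℝ) + 3) - (((p : ℝ) + 3 - r) / 4 + r)) - r -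
        ((p : ℝ) + 3 - r) * (l * (23 / 100) + (1 - l)) = ((p : ℝ) + 3 - r) * (l / 50) := by
      ring
    linarith
  -- (iii)
  have i3 : e1 p / (8 * ((p : ℝ) + 2)) / 50 ≤
      (((p : ℝ) + 3) - r * (1 / x)) / ((p : ℝ) + 3 - r) - x ^ (w + 1) := by
    have k1 : (((p : ℝ) + 3) - r * (1 / x)) / ((p : ℝ) + 3 - r) - x ^ (w + 1) =
        (((p : ℝ) + 3) * x - r - ((p : ℝ) + 3 - r) * x ^ (w + 2)) /
          (((p : ℝ) + 3 - r) * x) := by
      field_simp
      ring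
    rw [k1, le_div_iff₀ (by positivity)]
    refine le_trans ?_ i1
    have : e1 p / (8 * ((p : ℝ) + 2)) / 50 * (((p : ℝ) + 3 - r) * x) =
        (((p : ℝ) + 3 - r) * (e1 p / (8 * ((p : ℝ) + 2)) / 50)) * x := by ring
    rw [this]
    exact mul_le_of_le_one_right (by positivity) hxle
  -- (ii)
  have i2 : A * ((((p : ℝ) + 3) - r * (1 / x)) / ((p : ℝ) + 3 - r) -
      ε * (((p : ℝ) + 3) * (1 + r) / ((p : ℝ) + 3 - r))) ≤ T := by
    refine le_trans ?_ h4
    have k2 : A * ((((p : ℝ) + 3) - r * (1 / x)) / ((p : ℝ) + 3 - r) -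
        ε * (((p : ℝ) + 3) * (1 + r) / ((p : ℝ) + 3 - r))) =
        ((p : ℝ) + 3) / ((p : ℝ) + 3 - r) *
          ((1 - ε) * A - r * (A * (1 / (((p : ℝ) + 3) * x) + ε))) := by
      field_simp
      ring
    rw [k2]
    apply mul_le_mul_of_nonneg_left _ (by positivity)
    have := mul_le_mul_of_nonneg_left h3 hr0
    linarith
  have hK : ((p : ℝ) + 3) * (1 + r) / ((p : ℝ) + 3 - r) ≤ ((p : ℝ) + 3) ^ 2 := by
    rw [div_le_iff₀ hβ]
    have m1 : ((p : ℝ) + 3) * (1 + r) ≤ ((p : ℝ) + 3) * ((p : ℝ) + 3) :=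
      mul_le_mul_of_nonneg_left (by linarith) (by linarith)
    have m2 : ((p : ℝ) + 3) ^ 2 * 1 ≤ ((p : ℝ) + 3) ^ 2 * ((p : ℝ) + 3 - r) :=
      mul_le_mul_of_nonneg_left (by linarith) (by positivity)
    have m3 : ((p : ℝ) + 3) ^ 2 = ((p : ℝ) + 3) * ((p : ℝ) + 3) := sq _
    linarith
  have hεK : ε * (((p : ℝ) + 3) * (1 + r) / ((p : ℝ) + 3 - r)) ≤
      e1 p / (800 * ((p : ℝ) + 3)) := by
    refine (mul_le_mul_of_nonneg_left hK hεpos.le).trans (le_of_eq ?_)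
    rw [hε]; field_simp
  have hch : (1 : ℝ) ≤ ((p + 2).choose (w + 1) : ℝ) := by
    have : 1 ≤ (p + 2).choose (w + 1) := Nat.choose_pos (by have := h.wp; omega)
    exact_mod_cast this
  have het0 : 0 ≤ et p w := by unfold et; positivity
  have het : 2 * et p w ≤ e1 p / (800 * ((p : ℝ) + 3)) := by
    have k3 : et p w ≤ e1 p / (256 * ((p : ℝ) + 3) ^ 3 * 4) := by
      unfold et
      apply div_le_div_of_nonneg_left he.le (by positivity)
      have k4 : (4 : ℝ) ≤ ((w : ℝ) + 2) * (p + 2).choose (w + 1) := NDMY_k4 _ _ hw2 hch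
      have k5 : 0 < 256 * ((p : ℝ) + 3) ^ 3 := by positivity
      have := mul_le_mul_of_nonneg_left k4 k5.le
      linarith
    have k6 : e1 p / (256 * ((p : ℝ) + 3) ^ 3 * 4) ≤ e1 p / (1600 * ((p : ℝ) + 3)) := by
      apply div_le_div_of_nonneg_left he.le (by positivity)
      have k7 : (49 : ℝ) ≤ ((p : ℝ) + 3) ^ 2 := NDMY_k7 _ hp4
      have : ((p : ℝ) + 3) ^ 3 = ((p : ℝ) + 3) ^ 2 * ((p : ℝ) + 3) := by ring
      rw [this]
      have := mul_le_mul_of_nonneg_right k7 (by linarith : (0 : ℝ) ≤ (p : ℝ) + 3)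
      linarith
    have k8 : e1 p / (800 * ((p : ℝ) + 3)) = 2 * (e1 p / (1600 * ((p : ℝ) + 3))) := by
      field_simp; norm_num
    linarith
  have hfin : e1 p / (800 * ((p : ℝ) + 3)) + e1 p / (800 * ((p : ℝ) + 3)) ≤
      e1 p / (8 * ((p : ℝ) + 2)) / 50 := by
    have k9 : e1 p / (800 * ((p : ℝ) + 3)) + e1 p / (800 * ((p : ℝ) + 3)) =
        e1 p / (400 * ((p : ℝ) + 3)) := by
      field_simp; norm_num
    have k10 : e1 p / (8 * ((p : ℝ) + 2)) / 50 = e1 p / (400 * ((p : ℝ) + 2)) := by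
      field_simp; norm_num
    rw [k9, k10]
    exact div_le_div_of_nonneg_left he.le (by positivity) (by linarith)
  have hT2 : T ≤ 2 * A := by
    have : (1 + ε) * A ≤ 2 * A := mul_le_mul_of_nonneg_right (by linarith) hA.le
    linarith
  have i4 : et p w * T ≤ 2 * et p w * A := by
    have := mul_le_mul_of_nonneg_left hT2 het0
    linarith
  have i5 : A * (x ^ (w + 1) + 2 * et p w) ≤ A * ((((p : ℝ) + 3) - r * (1 / x)) /
      ((p : ℝ) + 3 - r) - ε * (((p : ℝ) + 3) * (1 + r) / ((p : ℝ) + 3 - r))) := by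
    apply mul_le_mul_of_nonneg_left _ hA.le
    linarith
  have i6 : A * (x ^ (w + 1) + 2 * et p w) = x ^ (w + 1) * A + 2 * et p w * A := by ring
  have i7 : (1 - et p w) * T = T - et p w * T := by ring
  linarith

theorem NDMY_thm (hN : NYAStmt) (hG : PRGStmt) (hP : PRFStmt) (hZ : ZYGStmt) (hC : CCK0Stmt)
    (hO : GCO0Stmt) : NDMYStmt := by
  intro p w r h
  have hp0 : (0 : ℝ) ≤ p := Nat.cast_nonneg p
  have h0 : Pr0 p w r := ⟨h.wp, by have := h.rw; omega, h.rp⟩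
  have he : 0 < e1 p := by unfold e1; positivity
  have hy0 : 0 < yY p r := by unfold yY; positivity
  set ε : ℝ := e1 p / (800 * ((p : ℝ) + 3) ^ 3) with hε
  have hε0 : 0 < ε := by positivity
  obtain ⟨e₀, he₀, hP1⟩ := hP p ε hε0
  obtain ⟨e₂, he₂, hG1⟩ := hG p ε (yY p r) hε0 hy0
  refine ⟨min (min e₀ e₂) (e1 p / 2), lt_min (lt_min he₀ he₂) (by positivity), fun C => ?_⟩
  obtain ⟨a₀, hP2⟩ := hP1 C
  obtain ⟨a₂, hG2⟩ := hG1 C
  refine ⟨max (max a₀ a₂) 1, fun a ha V _ G e W P U hStr he0 hee hCB z hz hn => ?_⟩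
  have ha0 : a₀ ≤ a := le_trans (le_trans (le_max_left _ _) (le_max_left _ _)) ha
  have ha2 : a₂ ≤ a := le_trans (le_trans (le_max_right _ _) (le_max_left _ _)) ha
  have ha1 : 1 ≤ a := le_trans (le_max_right _ _) ha
  have haR : (0 : ℝ) < a := by exact_mod_cast ha1
  have hee0 : e ≤ e₀ := hee.trans ((min_le_left _ _).trans (min_le_left _ _))
  have hee2 : e ≤ e₂ := hee.trans ((min_le_left _ _).trans (min_le_right _ _))
  obtain ⟨p1, p2, -, -, -, -, p7⟩ := hP2 a ha0 G e W P U hStr he0 hee0 hCB z hz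
  have hn' : yY p r * (((p : ℝ) + 2) * a) ≤ ((nb G (un P) z).card : ℝ) := by
    refine le_trans (le_of_eq ?_) hn
    unfold mY; ring
  have g1 := hG2 a ha2 G e W P U hStr he0 hee2 hCB z hz hn'
  obtain ⟨c1, -, -, -⟩ := hC G p w r a e C W P U h0 hStr he0 (hee.trans (min_le_right _ _)) hCB z hz
  obtain ⟨o1, -⟩ := hO p w r h0
  set X := un P with hX
  have hXW : X ⊆ W := by
    intro v hv
    rw [hX, un, mem_biUnion] at hv
    obtain ⟨i, -, hi⟩ := hv
    exact (hStr.cov v).2 (Or.inr ⟨i, hi⟩)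
  have hzW : z ∈ W := (hStr.cov z).2 (Or.inl hz)
  set x : ℝ := ((nb G X z).card : ℝ) / (((p : ℝ) + 2) * a) with hx
  have hxn : ((nb G X z).card : ℝ) = x * (((p : ℝ) + 2) * a) := by rw [hx]; field_simp
  have hA : (0 : ℝ) < (a : ℝ) ^ (p + 3) := by positivity
  have hyx : yY p r ≤ x := by
    rw [hx, le_div_iff₀ (by positivity)]; exact hn'
  have hx0 : 0 < x := lt_of_lt_of_le hy0 hyx
  have hT : TZ G p r X z ≤ (kc G X (p + 3) : ℝ) := by
    unfold TZ
    have : (kc G X (p + 3) : ℝ) = ∑ L ∈ clq G X (p + 3), (1 : ℝ) := by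
      rw [sum_const, nsmul_eq_mul, mul_one]
      rfl
    rw [this]
    exact sum_le_sum fun L hL => (o1 _ (c1 L hL)).2.1
  have h4 : ((p : ℝ) + 3) / ((p : ℝ) + 3 - r) * ((kc G X (p + 3) : ℝ) -
      r * ∑ L ∈ clq G X (p + 3), 1 / (((nb G L z).card : ℝ) + 1)) ≤ TZ G p r X z := by
    unfold TZ
    have : (kc G X (p + 3) : ℝ) = ∑ L ∈ clq G X (p + 3), (1 : ℝ) := by
      rw [sum_const, nsmul_eq_mul, mul_one]
      rfl
    rw [this, mul_sum, ← sum_sub_distrib, mul_sum]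
    exact sum_le_sum fun L _ => NDMY_ww p r _ h.rp
  have key := NDMY_num p w r h (hN p w r h) ε ((a : ℝ) ^ (p + 3)) (kc G X (p + 3))
    (∑ L ∈ clq G X (p + 3), 1 / (((nb G L z).card : ℝ) + 1)) (TZ G p r X z) x hA hε p1 p2
    (by
      refine g1.trans (le_of_eq ?_)
      rw [hxn]
      congr 2
      field_simp) h4 hT hyx
    (by
      rw [hx, div_le_iff₀ (by positivity)]
      refine p7.trans (le_of_eq ?_)
      field_simp)
  -- Zykov
  have hCBz : CB G (nb G X z) (p + 2) := by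
    intro S hS hcl
    have hzS : z ∉ S := fun hzS => G.loopless.irrefl z ((mem_nb G).1 (hS hzS)).2
    have := hCB (insert z S)
      (by
        intro v hv
        rcases mem_insert.1 hv with rfl | hv
        · exact hzW
        · exact hXW ((mem_nb G).1 (hS hv)).1)
      (by
        rw [coe_insert]
        refine hcl.insert fun v hv _ => ((mem_nb G).1 (hS hv)).2)
    rw [card_insert_of_notMem hzS] at this
    omega
  have hk := hZ G (p + 2) (nb G X z) hCBz (w + 1)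
  have hk2 : (kc G (nb G X z) (w + 1) : ℝ) ≤
      (p + 2).choose (w + 1) * (x ^ (w + 1) * (a : ℝ) ^ (w + 1)) := by
    refine hk.trans (le_of_eq ?_)
    rw [hxn, ← mul_pow]
    congr 2
    push_cast
    field_simp
  unfold nd
  apply max_eq_left
  have e9 : (1 - et p w) * ((p + 2).choose (w + 1) * (a : ℝ) ^ (w + 1) / (a : ℝ) ^ (p + 3)) *
      TZ G p r X z = (p + 2).choose (w + 1) * ((a : ℝ) ^ (w + 1) *
        ((1 - et p w) * TZ G p r X z / (a : ℝ) ^ (p + 3))) := by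
    ring
  rw [e9, sub_nonpos]
  refine hk2.trans ?_
  apply mul_le_mul_of_nonneg_left _ (Nat.cast_nonneg _)
  rw [mul_comm]
  apply mul_le_mul_of_nonneg_left _ (by positivity)
  rw [le_div_iff₀ hA]
  exact key

end Pool.GY7
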